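import Pool.Agent.P.MP_99daa8_nt.SI.Fin

namespace Pool.Agent.Results.MP_99daa8_nt.ShortIntervals

open Pool.Agent.P.MP_99daa8_nt Pool.Agent.P.MP_99daa8_nt.SI Filter Topology

/-- Equidistribution of modular symbols modulo `p ^ e` on `Σ_M` for all `M` outside a set that
has `o(H)` elements in every interval `[X, X + H)` with `√X (log X)² ≤ H ≤ X`. -/
theorem result {N : ℕ} [NeZero N] (f : CuspForm (CongruenceSubgroup.Gamma0 N) 2)
    (Ω : ℂ) (ε : ℤ) (_hε : ε = 1 ∨ ε = -1) (p : ℕ) (hp : p.Prime)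
    (hint : ∀ r : ℚ, IsPIntegral p (modSym f Ω ε r))
    (hunit : ∃ r : ℚ, N ∣ r.den ∧ ¬ CongMod p 1 (modSym f Ω ε r) 0)
    (l : ℕ) (hl : l.Prime) (hlN : ¬ l ∣ N) (lam : ℤ) (hT : ∀ z, hecke l f z = lam * f z)
    (hlam : ¬ (p : ℤ) ∣ lam - (l + 1)) :
    ∃ E : Set ℕ, RareInShortIntervals E ∧ ∀ (e : ℕ) (a : ℤ),
      Tendsto (fun M => prob M fun r => CongMod p e (modSym f Ω ε r) a)
        (atTop ⊓ 𝓟 Eᶜ) (𝓝 (1 / (p : ℝ) ^ e)) := by
  obtain ⟨m, H, hiff⟩ := bridge f Ω ε p hp hint hunit l hl lam hT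
  obtain ⟨E, hE, hlim⟩ := main_gen (m := m) hp (j := 0) Set.univ fun e ψ hψ κ κ0 =>
    (rare_int' (sym_chr H (Nat.pos_of_ne_zero (NeZero.ne N)) hp hl hlN hlam e ψ hψ) κ0).mono
      fun M hM => hM.2
  refine ⟨E, hE.short, fun e a => ?_⟩
  simp only [hiff]
  rw [Set.compl_eq_univ_sdiff]
  exact hlim e a

end Pool.Agent.Results.MP_99daa8_nt.ShortIntervals
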